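import Pool.Agent.helper87.X4.Spec

/-!
# Project X4, row DC: conjugation of derivations by tensor powers
-/

set_option autoImplicit false

namespace Pool.Agent.X4

open Matrix Pool.Agent.PL

/-- exchange of a coordinate with a free index -/
theorem DC_swap {N m : ℕ} {R : Type} [CommRing R] (k : Fin m)
    (g : (Fin m → Fin N) → Fin N → R) :
    ∑ J, ∑ j, g J j = ∑ J, ∑ j, g (Function.update J k j) (J k) := by
  have e : Function.Involutive
      (fun p : (Fin m → Fin N) × Fin N => (Function.update p.1 k p.2, p.1 k)) := by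
    rintro ⟨J, j⟩
    simp
  calc ∑ J, ∑ j, g J j = ∑ p : (Fin m → Fin N) × Fin N, g p.1 p.2 := by
        rw [Fintype.sum_prod_type]
    _ = ∑ p : (Fin m → Fin N) × Fin N, g (Function.update p.1 k p.2) (p.1 k) :=
        (Equiv.sum_comp e.toPerm (fun p : (Fin m → Fin N) × Fin N => g p.1 p.2)).symm
    _ = ∑ J, ∑ j, g (Function.update J k j) (J k) := by
        rw [Fintype.sum_prod_type]

theorem DC_prod_right {N m : ℕ} {R : Type} [CommRing R] (u : Matrix (Fin N) (Fin N) R) (k : Fin m)
    (I J : Fin m → Fin N) (a : Fin N) :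
    ∏ i, u (I i) (Function.update J k a i) =
      u (I k) a * ∏ i ∈ Finset.univ.erase k, u (I i) (J i) := by
  rw [← Finset.mul_prod_erase Finset.univ _ (Finset.mem_univ k), Function.update_self]
  congr 1
  refine Finset.prod_congr rfl fun i hi => ?_
  rw [Function.update_of_ne (Finset.ne_of_mem_erase hi)]

theorem DC_prod_left {N m : ℕ} {R : Type} [CommRing R] (u : Matrix (Fin N) (Fin N) R) (k : Fin m)
    (I J : Fin m → Fin N) (a : Fin N) :
    ∏ i, u (Function.update I k a i) (J i) =
      u a (J k) * ∏ i ∈ Finset.univ.erase k, u (I i) (J i) := by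
  rw [← Finset.mul_prod_erase Finset.univ _ (Finset.mem_univ k), Function.update_self]
  congr 1
  refine Finset.prod_congr rfl fun i hi => ?_
  rw [Function.update_of_ne (Finset.ne_of_mem_erase hi)]

/-- the common value of both sides for one index `k` -/
theorem DC_lhs {N m : ℕ} {R : Type} [CommRing R] (u X : Matrix (Fin N) (Fin N) R) (t : Tn N m R)
    (I : Fin m → Fin N) (k : Fin m) :
    ∑ J, (∏ i, u (I i) (J i)) * ∑ j, X (J k) j * t (Function.update J k j) =
      ∑ J, (∏ i ∈ Finset.univ.erase k, u (I i) (J i)) * (u * X) (I k) (J k) * t J := by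
  have h1 : ∑ J, (∏ i, u (I i) (J i)) * ∑ j, X (J k) j * t (Function.update J k j) =
      ∑ J, ∑ j, (∏ i, u (I i) (J i)) * (X (J k) j * t (Function.update J k j)) :=
    Finset.sum_congr rfl fun J _ => Finset.mul_sum _ _ _
  rw [h1, DC_swap k]
  refine Finset.sum_congr rfl fun J _ => ?_
  rw [Matrix.mul_apply, Finset.mul_sum, Finset.sum_mul]
  refine Finset.sum_congr rfl fun a _ => ?_
  rw [DC_prod_right, Function.update_self, Function.update_idem, Function.update_eq_self]
  ring

theorem DC_rhs {N m : ℕ} {R : Type} [CommRing R] (u w X : Matrix (Fin N) (Fin N) R)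
    (hw : w * u = 1) (t : Tn N m R) (I : Fin m → Fin N) (k : Fin m) :
    ∑ j, (u * X * w) (I k) j * ∑ J, (∏ i, u (Function.update I k j i) (J i)) * t J =
      ∑ J, (∏ i ∈ Finset.univ.erase k, u (I i) (J i)) * (u * X) (I k) (J k) * t J := by
  have h1 : ∑ j, (u * X * w) (I k) j * ∑ J, (∏ i, u (Function.update I k j i) (J i)) * t J =
      ∑ j, ∑ J, (u * X * w) (I k) j * ((∏ i, u (Function.update I k j i) (J i)) * t J) :=
    Finset.sum_congr rfl fun J _ => Finset.mul_sum _ _ _
  rw [h1, Finset.sum_comm]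
  refine Finset.sum_congr rfl fun J _ => ?_
  have h2 : (u * X) (I k) (J k) = ∑ j, (u * X * w) (I k) j * u j (J k) := by
    rw [← Matrix.mul_apply, Matrix.mul_assoc (u * X) w u, hw, Matrix.mul_one]
  rw [h2, Finset.mul_sum, Finset.sum_mul]
  refine Finset.sum_congr rfl fun j _ => ?_
  rw [DC_prod_left]
  ring

/-- DC -/
theorem DC : DC_stmt := by
  intro N m R _ u w X _ hw t
  funext I
  have h1 : (tp u m *ᵥ der X m t) I =
      ∑ k : Fin m, ∑ J, (∏ i, u (I i) (J i)) * ∑ j, X (J k) j * t (Function.update J k j) := by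
    unfold Matrix.mulVec dotProduct tp der
    rw [Finset.sum_comm]
    refine Finset.sum_congr rfl fun J _ => ?_
    rw [Finset.mul_sum]
  have h2 : der (u * X * w) m (tp u m *ᵥ t) I =
      ∑ k : Fin m, ∑ j, (u * X * w) (I k) j *
        ∑ J, (∏ i, u (Function.update I k j i) (J i)) * t J := rfl
  rw [h1, h2]
  refine Finset.sum_congr rfl fun k _ => ?_
  rw [DC_lhs, DC_rhs u w X hw]

end Pool.Agent.X4
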